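import Pool.Agent.N126.RC.Stm

/-!
Heights of roots of monic equations: the statement `S_BND` on finite morphisms.
-/

set_option autoImplicit false

open FF MvPolynomial Pool.Agent.W603.LV Pool.Agent.W603.PV Pool.Agent.N126.RC

namespace Pool.Agent.N438.RC

section height

variable {κ L : Type} [Field κ] [Field L] [Algebra κ L] [CharZero κ] [IsFF κ L]

theorem hgt_mul_le (f g : L) : hgt κ (f * g) ≤ hgt κ f + hgt κ g := by
  by_cases hf : f = 0
  · rw [hf, zero_mul, hgt_zero, zero_add]; exact hgt_nonneg g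
  by_cases hg : g = 0
  · rw [hg, mul_zero, hgt_zero, add_zero]; exact hgt_nonneg f
  exact hgt_mul hf hg

theorem hgt_add_le (f g : L) : hgt κ (f + g) ≤ hgt κ f + hgt κ g := by
  obtain ⟨T, hT⟩ := exists_supp (k := κ) (Finset.univ : Finset (Fin 3)) ![f, g, f + g]
  have h1 : ∀ P : Place κ L, P.ord f ≠ 0 → P ∈ T := fun P => hT 0 (Finset.mem_univ _) P
  have h2 : ∀ P : Place κ L, P.ord g ≠ 0 → P ∈ T := fun P => hT 1 (Finset.mem_univ _) P
  have h3 : ∀ P : Place κ L, P.ord (f + g) ≠ 0 → P ∈ T := fun P => hT 2 (Finset.mem_univ _) P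
  rw [hgt_finset _ T h1, hgt_finset _ T h2, hgt_finset _ T h3, ← Finset.sum_add_distrib]
  refine Finset.sum_le_sum fun P _ => ?_
  have hf : Ge P (min (P.ord f) 0 + min (P.ord g) 0) f := Or.inr (by omega)
  have hg : Ge P (min (P.ord f) 0 + min (P.ord g) 0) g := Or.inr (by omega)
  rcases hf.add hg with h | h
  · rw [h, P.ord_zero]; omega
  · omega

/-- The height of the value of a polynomial. -/
theorem hgt_eval₂_le {E : Type} [Field E] (φ : E →+* L) {n : ℕ} (H : ℤ)
    (F : MvPolynomial (Fin (n + 1)) E) :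
    ∃ B : ℤ, ∀ x : Fin (n + 1) → L, (∀ j, hgt κ (x j) ≤ H) → hgt κ (eval₂ φ x F) ≤ B := by
  induction F using MvPolynomial.induction_on with
  | C a => exact ⟨hgt κ (φ a), fun x _ => by rw [eval₂_C]⟩
  | add p q hp hq =>
    obtain ⟨B1, h1⟩ := hp
    obtain ⟨B2, h2⟩ := hq
    refine ⟨B1 + B2, fun x hx => ?_⟩
    rw [eval₂_add]
    exact (hgt_add_le _ _).trans (add_le_add (h1 x hx) (h2 x hx))
  | mul_X p i hp =>
    obtain ⟨B1, h1⟩ := hp
    refine ⟨B1 + H, fun x hx => ?_⟩
    rw [eval₂_mul, eval₂_X]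
    exact (hgt_mul_le _ _).trans (add_le_add (h1 x hx) (hx i))

end height

/-- A monic relation for the coordinate `w`, with coefficients in the field `E`. -/
def Rel {E : Type} [Field E] {n : ℕ} {W ι : Type} (G : ι → MvPolynomial (Fin (n + 1) ⊕ W) E)
    (w : W) : Prop :=
  ∃ p : Polynomial (MvPolynomial (Fin (n + 1)) E), p.Monic ∧
    p.eval₂ (rename Sum.inl).toRingHom (X (Sum.inr w)) ∈ Ideal.span (Set.range G)

/-- The relation descends to the field of the coefficients. -/
theorem rel_descend {K : Type} [Field K] {n : ℕ} {W ι : Type}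
    (G : ι → MvPolynomial (Fin (n + 1) ⊕ W) K) (w : W) (h : Rel G w) :
    ∃ T : Finset K, ∀ (E : Type) [Field E] (ψ : E →+* K), (∀ t ∈ T, t ∈ ψ.range) →
      ∀ G' : ι → MvPolynomial (Fin (n + 1) ⊕ W) E, (∀ i, map ψ (G' i) = G i) → Rel G' w := by
  classical
  obtain ⟨p, hp, hpm⟩ := h
  obtain ⟨c, hc⟩ := Finsupp.mem_ideal_span_range_iff_exists_finsupp.1 hpm
  refine ⟨((Finset.range (p.natDegree + 1)).biUnion fun i => (p.coeff i).coeffs) ∪
    (c.support.biUnion fun i => (c i).coeffs), fun E _ ψ hψ G' hG' => ?_⟩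
  -- the lift of the polynomial
  have h1 : p ∈ Polynomial.lifts (map ψ : MvPolynomial (Fin (n + 1)) E →+* _) := by
    rw [Polynomial.lifts_iff_coeff_lifts]
    intro i
    by_cases hi : i ∈ Finset.range (p.natDegree + 1)
    · have h2 : p.coeff i ∈ Set.range (map ψ : MvPolynomial (Fin (n + 1)) E →+* _) := by
        rw [mem_range_map_iff_coeffs_subset]
        intro t ht
        have := hψ t (Finset.mem_union_left _ (Finset.mem_biUnion.2 ⟨i, hi, ht⟩))
        exact this
      exact h2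
    · rw [Finset.mem_range] at hi
      rw [Polynomial.coeff_eq_zero_of_natDegree_lt (by omega)]
      exact ⟨0, map_zero _⟩
  obtain ⟨p', hp', -, hpm'⟩ := Polynomial.lifts_and_natDegree_eq_and_monic h1 hp
  -- the lifts of the coefficients of the relation
  have h3 : ∀ i, ∃ d : MvPolynomial (Fin (n + 1) ⊕ W) E, map ψ d = c i := by
    intro i
    by_cases hi : i ∈ c.support
    · have h2 : c i ∈ Set.range (map ψ : MvPolynomial (Fin (n + 1) ⊕ W) E →+* _) := by
        rw [mem_range_map_iff_coeffs_subset]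
        intro t ht
        exact hψ t (Finset.mem_union_right _ (Finset.mem_biUnion.2 ⟨i, hi, ht⟩))
      exact h2
    · rw [Finsupp.mem_support_iff, not_not] at hi
      exact ⟨0, by rw [hi, map_zero]⟩
  choose d hd using h3
  refine ⟨p', hpm', ?_⟩
  have h4 : p'.eval₂ (rename Sum.inl).toRingHom (X (Sum.inr w)) =
      ∑ i ∈ c.support, d i * G' i := by
    apply map_injective ψ ψ.injective
    rw [Polynomial.hom_eval₂, map_X, map_sum]
    have h5 : (map ψ).comp (rename (R := E) (Sum.inl : Fin (n + 1) → Fin (n + 1) ⊕ W)).toRingHom =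
        ((rename (R := K) (Sum.inl : Fin (n + 1) → Fin (n + 1) ⊕ W)).toRingHom).comp
          (map ψ) := by
      apply MvPolynomial.ringHom_ext
      · intro a
        simp
      · intro a
        simp
    rw [h5, ← Polynomial.eval₂_map, hp', ← hc, Finsupp.sum]
    exact Finset.sum_congr rfl fun i _ => by rw [map_mul, hd, hG']
  rw [h4]
  exact Ideal.sum_mem _ fun i _ => Ideal.mul_mem_left _ _ (Ideal.subset_span ⟨i, rfl⟩)

/-- The height of a coordinate for which there is a monic relation. -/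
theorem hgt_of_rel {E : Type} [Field E] {n : ℕ} {W ι : Type}
    (G : ι → MvPolynomial (Fin (n + 1) ⊕ W) E) (w : W) (h : Rel G w) (κ L : Type) [Field κ]
    [Field L] [Algebra κ L] [IsAlgClosed κ] [CharZero κ] [IsFF κ L] (φ : E →+* L) (B : ℤ) :
    ∃ B' : ℤ, ∀ (x : Fin (n + 1) → L) (u : W → L),
      (∀ i, eval₂ φ (Sum.elim x u) (G i) = 0) → (∀ j, hgt κ (x j) ≤ B) → hgt κ (u w) ≤ B' := by
  obtain ⟨p, hp, hpm⟩ := h
  choose b hb using fun i : ℕ => hgt_eval₂_le (κ := κ) φ B (p.coeff i)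
  refine ⟨b p.natDegree + ∑ d ∈ Finset.range p.natDegree, b d, fun x u hxu hx => ?_⟩
  have h1 : (eval₂Hom φ (Sum.elim x u))
      (p.eval₂ (rename Sum.inl).toRingHom (X (Sum.inr w))) = 0 := by
    have h2 : Ideal.span (Set.range G) ≤ RingHom.ker (eval₂Hom φ (Sum.elim x u)) := by
      rw [Ideal.span_le]
      rintro _ ⟨i, rfl⟩
      exact hxu i
    exact h2 hpm
  rw [Polynomial.hom_eval₂, eval₂Hom_X'] at h1
  have h5 : (eval₂Hom φ (Sum.elim x u)).comp
      (rename (R := E) (Sum.inl : Fin (n + 1) → Fin (n + 1) ⊕ W)).toRingHom = eval₂Hom φ x := by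
    apply MvPolynomial.ringHom_ext
    · intro a
      simp
    · intro a
      simp
  rw [h5, Polynomial.eval₂_eq_sum_range, Sum.elim_inr] at h1
  have h6 := hgt_root (k := κ) (D := p.natDegree) (fun i => eval₂ φ x (p.coeff i)) (by
    rw [Polynomial.Monic.coeff_natDegree hp, eval₂_one]
    exact one_ne_zero) (u w) h1
  exact h6.trans (add_le_add (hb _ x hx) (Finset.sum_le_sum fun i _ => hb i x hx))

/-- BND: the heights of the coordinates `u`. -/
theorem main_BND : S_BND := by
  classical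
  intro K _ n W ι _ G hG
  have : Fintype W := Fintype.ofFinite W
  choose T hT using fun w => rel_descend G w (hG w)
  refine ⟨Finset.univ.biUnion T, fun E _ ψ hψ G' hG' => ?_⟩
  intro κ L _ _ _ _ _ _ φ B
  have h1 : ∀ w, Rel G' w := fun w => hT w E ψ
    (fun t ht => hψ t (Finset.mem_biUnion.2 ⟨w, Finset.mem_univ _, ht⟩)) G' hG'
  choose b hb using fun w => hgt_of_rel G' w (h1 w) κ L φ B
  obtain ⟨B', hB'⟩ := (Set.finite_range b).bddAbove
  exact ⟨B', fun x u hxu hx w => (hb w x u hxu hx).trans (hB' ⟨w, rfl⟩)⟩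

end Pool.Agent.N438.RC
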